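import Pool.Agent.Helper60.T3.Defs
import Pool.Agent.Helper3.SGA.GEL
import Pool.Agent.Helper31.SGA.GELARCH
import Pool.Agent.Helper81.VN.BRU

/-!
# PROJECT T3 (MP_a41896_nt), packet FACT: an irreducible factor of small height
-/

set_option autoImplicit false

open MvPolynomial

namespace Pool.Agent.Helper22.T3.FACT

open Pool.Agent.Helper92.Ru Pool.Agent.Helper42.SG

theorem gel : GEL := Pool.Agent.Helper3.SGA.gel Pool.Agent.Helper31.SGA.gelarch

theorem PH_ge_one {k : Type} [Field k] [NumberField k] {τ : Type} (p : MvPolynomial τ k) :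
    1 ≤ PH p := Height.one_le_mulHeight _

/-- an irreducible factor which vanishes at `x` -/
theorem exists_factor {K : Type} [Field K] {σ : Type} (g : MvPolynomial σ K) (x : σ → K)
    (hg : g ≠ 0) (h0 : eval x g = 0) :
    ∃ h : MvPolynomial σ K, Irreducible h ∧ eval x h = 0 ∧ h ∣ g := by
  obtain ⟨s, hs, u, hu⟩ := WfDvdMonoid.exists_factors g hg
  have h1 : eval x s.prod = 0 := by
    have h2 : eval x (s.prod * (u : MvPolynomial σ K)) = 0 := by rw [hu, h0]
    rw [map_mul, mul_eq_zero] at h2
    rcases h2 with h2 | h2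
    · exact h2
    · exact absurd h2 (u.isUnit.map (eval x)).ne_zero
  rw [← Multiset.prod_hom, Multiset.prod_eq_zero_iff, Multiset.mem_map] at h1
  obtain ⟨h, hh, h3⟩ := h1
  exact ⟨h, hs h hh, h3, (Multiset.dvd_prod hh).trans ⟨u, hu.symm⟩⟩

theorem t : Pool.Agent.Helper60.T3.S_FACT := by
  intro K _ _ σ _ _ D
  obtain ⟨C, hC, hgel⟩ := gel K (Fintype.card σ)
  refine ⟨C * (Fintype.card σ * D), by positivity, ?_⟩
  intro g x hg hD h0
  obtain ⟨h, hirr, hx, hdvd⟩ := exists_factor g x hg h0
  obtain ⟨q, hq⟩ := hdvd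
  have hh0 : h ≠ 0 := hirr.ne_zero
  have hq0 : q ≠ 0 := by
    rintro rfl
    rw [mul_zero] at hq
    exact hg hq
  have hdeg : ∀ i, g.degreeOf i = h.degreeOf i + q.degreeOf i := by
    intro i
    rw [hq, degreeOf_mul_eq hh0 hq0]
  refine ⟨h, hirr, fun i => ?_, hx, ⟨q, hq⟩, ?_⟩
  · have := hdeg i
    have := hD i
    omega
  · have e := Fintype.equivFin σ
    have hinj : Function.Injective (rename (R := K) e) := rename_injective _ e.injective
    have hne : ∀ p : MvPolynomial σ K, p ≠ 0 → rename e p ≠ 0 := by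
      intro p hp h1
      exact hp (hinj (by rw [h1, map_zero]))
    have h1 := hgel (Fin 2) Finset.univ ![rename e h, rename e q] (by
      intro i _
      fin_cases i
      · exact hne h hh0
      · exact hne q hq0)
    rw [Fin.sum_univ_two, Fin.prod_univ_two] at h1
    change Real.log (PH (rename e h)) + Real.log (PH (rename e q)) ≤
      Real.log (PH (rename e h * rename e q)) +
        C * ∑ i, ((rename e h * rename e q).degreeOf i : ℝ) at h1
    rw [← map_mul, ← hq, Pool.Agent.Helper81.VN.BRU.PH_rename e e.injective,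
      Pool.Agent.Helper81.VN.BRU.PH_rename e e.injective,
      Pool.Agent.Helper81.VN.BRU.PH_rename e e.injective] at h1
    have h2 : 0 ≤ Real.log (PH q) := Real.log_nonneg (PH_ge_one q)
    have h3 : ∑ i, ((rename e g).degreeOf i : ℝ) ≤ Fintype.card σ * D := by
      have : ∀ i ∈ (Finset.univ : Finset (Fin (Fintype.card σ))),
          ((rename e g).degreeOf i : ℝ) ≤ D := by
        intro i _
        have h4 := degreeOf_rename_of_injective (p := g) e.injective (e.symm i)
        rw [e.apply_symm_apply] at h4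
        rw [h4]
        exact_mod_cast hD _
      refine (Finset.sum_le_sum this).trans (le_of_eq ?_)
      rw [Finset.sum_const, Finset.card_univ, Fintype.card_fin, nsmul_eq_mul]
    have h5 := mul_le_mul_of_nonneg_left h3 hC
    linarith

end Pool.Agent.Helper22.T3.FACT
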